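import Mathlib

set_option autoImplicit false

namespace Pool.Agent.Results.MP_0f9876_co.TwoClasses

/-- `𝔽₂ⁿ` -/
abbrev F (n : ℕ) : Type := Fin n → ZMod 2

/-- `2A = A + A` contains a coset `x + V` of codimension at most `c`. -/
def HasCoset {n : ℕ} (A : Set (F n)) (c : ℕ) : Prop :=
  ∃ (x : F n) (V : Submodule (ZMod 2) (F n)), n ≤ Module.finrank (ZMod 2) V + c ∧
    ∀ v ∈ V, ∃ a ∈ A, ∃ b ∈ A, x + v = a + b

theorem dbl {n : ℕ} (v : F n) : v + v = 0 := by
  funext i
  exact CharTwo.add_self_eq_zero (v i)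

theorem result : ∀ (n : ℕ) (A B : Set (F n)), A ∪ B = Set.univ → Disjoint A B →
    HasCoset A 1 ∨ HasCoset B 1 := by
  intro n A B hU hD
  have hAB : ∀ x, x ∈ A ∨ x ∈ B := fun x => by
    have : x ∈ A ∪ B := by rw [hU]; trivial
    exact this
  have hnot : ∀ x, x ∈ A → x ∈ B → False := fun x h1 h2 => Set.disjoint_left.mp hD h1 h2
  by_cases h1 : ∀ v : F n, ∃ a ∈ A, ∃ b ∈ A, v = a + b
  · left
    exact ⟨0, ⊤, by simp, fun v _ => by rw [zero_add]; exact h1 v⟩
  by_cases h2 : ∀ v : F n, ∃ a ∈ B, ∃ b ∈ B, v = a + b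
  · right
    exact ⟨0, ⊤, by simp, fun v _ => by rw [zero_add]; exact h2 v⟩
  left
  push Not at h1 h2
  obtain ⟨v, hv⟩ := h1
  obtain ⟨w, hw⟩ := h2
  have addr : ∀ x y : F n, x + y + y = x := fun x y => by rw [add_assoc, dbl, add_zero]
  -- z ∉ 2A sends A to B
  have toB : ∀ z : F n, (∀ a ∈ A, ∀ b ∈ A, z ≠ a + b) → ∀ x ∈ A, x + z ∈ B := by
    intro z hz x hx
    rcases hAB (x + z) with h | h
    · exact absurd (by rw [← add_assoc, dbl, zero_add] : z = x + (x + z)) (hz x hx _ h)
    · exact h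
  have toA : ∀ x ∈ B, x + w ∈ A := by
    intro x hx
    rcases hAB (x + w) with h | h
    · exact h
    · exact absurd (by rw [← add_assoc, dbl, zero_add] : w = x + (x + w)) (hw x hx _ h)
  have BtoA : ∀ x ∈ B, x + v ∈ A := by
    intro x hx
    have e1 := toA x hx
    have e2 := toB v hv _ e1
    have e3 := toA _ e2
    have : x + w + v + w = x + v := by
      rw [add_right_comm, addr]
    rwa [this] at e3
  let V : Submodule (ZMod 2) (F n) :=
    { carrier := {u | ∀ x ∈ A, x + u ∈ A}
      add_mem' := by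
        intro a b ha hb x hx
        rw [← add_assoc]
        exact hb _ (ha x hx)
      zero_mem' := by
        intro x hx
        rw [add_zero]; exact hx
      smul_mem' := by
        intro c u hu x hx
        have hc : c = 0 ∨ c = 1 := by
          revert c; decide
        rcases hc with rfl | rfl
        · rw [zero_smul, add_zero]; exact hx
        · rw [one_smul]; exact hu x hx }
  have hVmem : ∀ z : F n, (∀ a ∈ A, ∀ b ∈ A, z ≠ a + b) → z + v ∈ V := by
    intro z hz x hx
    rw [← add_assoc]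
    exact BtoA _ (toB z hz x hx)
  have hvV : v ∉ V := by
    intro h
    by_cases hA : ∃ x, x ∈ A
    · obtain ⟨x, hx⟩ := hA
      exact hnot _ (h x hx) (toB v hv x hx)
    · push Not at hA
      have hB : ∀ x, x ∈ B := fun x => (hAB x).resolve_left (hA x)
      exact hw 0 (hB 0) w (hB w) (by rw [zero_add])
  obtain ⟨φ, hφv, hφV⟩ := Submodule.exists_le_ker_of_notMem hvV
  refine ⟨0, LinearMap.ker φ, ?_, ?_⟩
  · have h3 := LinearMap.finrank_range_add_finrank_ker φ
    have h4 : Module.finrank (ZMod 2) (LinearMap.range φ) ≤ 1 := by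
      calc _ ≤ Module.finrank (ZMod 2) (ZMod 2) := Submodule.finrank_le _
        _ = 1 := Module.finrank_self _
    rw [Module.finrank_fin_fun] at h3
    omega
  · intro z hz
    rw [zero_add]
    by_contra hcon
    push Not at hcon
    have h5 : φ (z + v) = 0 := hφV (hVmem z hcon)
    rw [map_add, LinearMap.mem_ker.mp hz, zero_add] at h5
    exact hφv h5

end Pool.Agent.Results.MP_0f9876_co.TwoClasses
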